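import Pool.Agent.Helper35.HG.StA

set_option autoImplicit false

namespace Helper3.HG

open Helper35.HG Helper35.HC Helper35.HSF Helper35.MS Helper35.PI Helper35.PI2 Helper32.CL
open scoped BigOperators

section lin

variable {n : ℕ}

/-- scalar product -/
noncomputable def dq (u v : Fin n → ℝ) : ℝ := ∑ i, u i * v i

theorem dq_comm (u v : Fin n → ℝ) : dq u v = dq v u := by
  unfold dq
  exact Finset.sum_congr rfl fun i _ => mul_comm _ _

theorem dq_lin3 (x1 x2 x3 : ℝ) (a b c w : Fin n → ℝ) :
    dq w (fun i => x1 * a i + x2 * b i + x3 * c i) = x1 * dq w a + x2 * dq w b + x3 * dq w c := by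
  unfold dq
  rw [Finset.mul_sum, Finset.mul_sum, Finset.mul_sum, ← Finset.sum_add_distrib,
    ← Finset.sum_add_distrib]
  exact Finset.sum_congr rfl fun i _ => by ring

theorem bil_dq (K : Fin n → Fin n → ℝ) (u v : Fin n → ℝ) : bil K u v = dq u (mv K v) := by
  unfold bil dq mv
  refine Finset.sum_congr rfl fun i _ => ?_
  rw [Finset.mul_sum]
  exact Finset.sum_congr rfl fun j _ => by ring

theorem bil_comm (K : Fin n → Fin n → ℝ) (hK : SymS K) (c d : Fin n → ℝ) :
    bil K c d = bil K d c := by
  unfold bil
  rw [Finset.sum_comm]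
  refine Finset.sum_congr rfl fun i _ => ?_
  refine Finset.sum_congr rfl fun j _ => ?_
  rw [hK j i]
  ring

theorem bil_lin3 (K : Fin n → Fin n → ℝ) (x1 x2 x3 : ℝ) (a b c w : Fin n → ℝ) :
    bil K w (fun i => x1 * a i + x2 * b i + x3 * c i)
      = x1 * bil K w a + x2 * bil K w b + x3 * bil K w c := by
  unfold bil
  rw [Finset.mul_sum, Finset.mul_sum, Finset.mul_sum, ← Finset.sum_add_distrib,
    ← Finset.sum_add_distrib]
  refine Finset.sum_congr rfl fun i _ => ?_
  rw [Finset.mul_sum, Finset.mul_sum, Finset.mul_sum, ← Finset.sum_add_distrib,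
    ← Finset.sum_add_distrib]
  exact Finset.sum_congr rfl fun j _ => by ring

theorem QB_dq (K B : Fin n → Fin n → ℝ) (P Q : Fin n → ℝ) :
    QB K B P Q = -2 * bil K (mv B P) (mv B Q) + 2 * bil K P P * dq (mv B P) (mv B Q)
      + bil K P Q * (dq (mv B P) (mv B P) + dq (mv B Q) (mv B Q)) := by
  unfold QB dq
  simp only [pow_two]

theorem cq_lc (K B : Fin n → Fin n → ℝ) (a g : ℝ) : cq K (lc a g K B) = g ^ 2 * cq K B := by
  unfold cq lc
  rw [Finset.mul_sum]
  refine Finset.sum_congr rfl fun i _ => ?_
  rw [Finset.mul_sum]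
  refine Finset.sum_congr rfl fun j _ => ?_
  have h : ∑ k, (K i k * (a * K k j + g * B k j) - (a * K i k + g * B i k) * K k j)
      = g * ∑ k, (K i k * B k j - B i k * K k j) := by
    rw [Finset.mul_sum]
    exact Finset.sum_congr rfl fun k _ => by ring
  rw [h]
  ring

/-- the case `κ = 0`: the matrix is scalar -/
theorem scalar_of_zero (K : Fin n → Fin n → ℝ) (P : Fin n → ℝ)
    (hP : ∑ i, P i ^ 2 = 1) (h0 : ∀ c d, OP c d → bil K c d = 0) (hK : SymS K) :
    ∀ u v : Fin n → ℝ, bil K u v = bil K P P * dq u v := by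
  have hoff : ∀ i j, i ≠ j → K i j = 0 := by
    intro i j hij
    have h := h0 (Pi.single i 1) (Pi.single j 1) ⟨by simp [Pi.single_apply], by
      simp [Pi.single_apply], by simp [Pi.single_apply, Ne.symm hij]⟩
    simpa [bil, Pi.single_apply] using h
  have hdi : ∀ i j, K i i = K j j := by
    intro i j
    by_cases hij : i = j
    · rw [hij]
    · have hs : (Real.sqrt 2)⁻¹ ^ 2 = 1 / 2 := by
        rw [inv_pow, Real.sq_sqrt (by norm_num)]
        norm_num
      have hsum : ∀ f : Fin n → ℝ, (∀ k, k ≠ i → k ≠ j → f k = 0) → ∑ k, f k = f i + f j := by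
        intro f hf
        rw [← Finset.sum_pair hij]
        refine (Finset.sum_subset (Finset.subset_univ _) fun k _ hk => hf k ?_ ?_).symm
        · rintro rfl
          exact hk (by simp)
        · rintro rfl
          exact hk (by simp)
      set s : ℝ := (Real.sqrt 2)⁻¹ with hsdef
      set c : Fin n → ℝ := fun k => if k = i then s else if k = j then s else 0 with hc
      set d : Fin n → ℝ := fun k => if k = i then s else if k = j then -s else 0 with hd
      have ci : c i = s := by simp [hc]
      have cj : c j = s := by simp [hc]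
      have di : d i = s := by simp [hd]
      have dj : d j = -s := by simp [hd, Ne.symm hij]
      have cz : ∀ k, k ≠ i → k ≠ j → c k = 0 := fun k h1 h2 => by simp [hc, h1, h2]
      have dz : ∀ k, k ≠ i → k ≠ j → d k = 0 := fun k h1 h2 => by simp [hd, h1, h2]
      have h := h0 c d ⟨by
          rw [hsum _ (fun k h1 h2 => by rw [cz k h1 h2]; ring), ci, cj]
          linarith, by
          rw [hsum _ (fun k h1 h2 => by rw [dz k h1 h2]; ring), di, dj]
          nlinarith, by
          rw [hsum _ (fun k h1 h2 => by rw [cz k h1 h2]; ring), ci, cj, di, dj]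
          ring⟩
      unfold bil at h
      rw [hsum _ (fun k h1 h2 => Finset.sum_eq_zero fun l _ => by rw [cz k h1 h2]; ring),
        hsum _ (fun k h1 h2 => by rw [dz k h1 h2]; ring),
        hsum _ (fun k h1 h2 => by rw [dz k h1 h2]; ring), ci, cj, di, dj,
        hoff i j hij, hoff j i (Ne.symm hij)] at h
      nlinarith
  have hall : ∀ i j, ∀ k, K i j = if i = j then K k k else 0 := by
    intro i j k
    by_cases hij : i = j
    · rw [if_pos hij, ← hij]
      exact hdi i k
    · rw [if_neg hij]
      exact hoff i j hij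
  have key : ∀ u v : Fin n → ℝ, ∀ k, bil K u v = K k k * dq u v := by
    intro u v k
    unfold bil dq
    rw [Finset.mul_sum]
    refine Finset.sum_congr rfl fun i _ => ?_
    rw [Finset.sum_eq_single i]
    · rw [hall i i k, if_pos rfl]
    · intro j _ hj
      rw [hall i j k, if_neg (Ne.symm hj), zero_mul]
    · intro h
      exact absurd (Finset.mem_univ i) h
  intro u v
  by_cases hn : Nonempty (Fin n)
  · obtain ⟨k⟩ := hn
    have hPP : dq P P = 1 := by
      unfold dq
      simpa [pow_two] using hP
    rw [key u v k, key P P k, hPP, mul_one]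
  · exfalso
    rw [not_nonempty_iff] at hn
    rw [Finset.univ_eq_empty, Finset.sum_empty] at hP
    exact zero_ne_one hP

/-- the quadratic form `QB` of `aK + gB` -/
theorem core (K : Fin n → Fin n → ℝ) (hK : SymS K) (P Q u v : Fin n → ℝ) (k m a g : ℝ)
    (mP : mv K P = fun i => k * P i + m * Q i) (mQ : mv K Q = fun i => k * Q i + m * P i)
    (hPP : dq P P = 1) (hQQ : dq Q Q = 1) (hPQ : dq P Q = 0) :
    -2 * bil K (fun i => (a * k) * P i + (a * m) * Q i + g * u i)
        (fun i => (a * k) * Q i + (a * m) * P i + g * v i)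
      + 2 * k * dq (fun i => (a * k) * P i + (a * m) * Q i + g * u i)
        (fun i => (a * k) * Q i + (a * m) * P i + g * v i)
      + m * (dq (fun i => (a * k) * P i + (a * m) * Q i + g * u i)
          (fun i => (a * k) * P i + (a * m) * Q i + g * u i)
        + dq (fun i => (a * k) * Q i + (a * m) * P i + g * v i)
          (fun i => (a * k) * Q i + (a * m) * P i + g * v i))
      = g ^ 2 * (-2 * bil K u v + 2 * k * dq u v + m * (dq u u + dq v v)) := by
  have hQP : dq Q P = 0 := by rw [dq_comm]; exact hPQ
  have bP : ∀ w, bil K w P = k * dq w P + m * dq w Q := by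
    intro w
    rw [bil_dq K w P, mP]
    have := dq_lin3 k m 0 P Q P w
    simpa using this
  have bQ : ∀ w, bil K w Q = k * dq w Q + m * dq w P := by
    intro w
    rw [bil_dq K w Q, mQ]
    have := dq_lin3 k m 0 Q P P w
    simpa using this
  have dU : ∀ w, dq w (fun i => (a * k) * P i + (a * m) * Q i + g * u i)
      = (a * k) * dq w P + (a * m) * dq w Q + g * dq w u :=
    fun w => dq_lin3 _ _ _ P Q u w
  have dV : ∀ w, dq w (fun i => (a * k) * Q i + (a * m) * P i + g * v i)
      = (a * k) * dq w Q + (a * m) * dq w P + g * dq w v :=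
    fun w => dq_lin3 _ _ _ Q P v w
  have bU : ∀ w, bil K w (fun i => (a * k) * P i + (a * m) * Q i + g * u i)
      = (a * k) * bil K w P + (a * m) * bil K w Q + g * bil K w u :=
    fun w => bil_lin3 K _ _ _ P Q u w
  have bV : ∀ w, bil K w (fun i => (a * k) * Q i + (a * m) * P i + g * v i)
      = (a * k) * bil K w Q + (a * m) * bil K w P + g * bil K w v :=
    fun w => bil_lin3 K _ _ _ Q P v w
  generalize hU : (fun i => (a * k) * P i + (a * m) * Q i + g * u i) = U at *
  generalize hV : (fun i => (a * k) * Q i + (a * m) * P i + g * v i) = V at *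
  rw [bV U, bQ U, bP U, bil_comm K hK U v, bU v, bP v, bQ v, bil_comm K hK v u, dV U, dU U, dV V,
    dq_comm U P, dq_comm U Q, dq_comm U u, dq_comm U v, dU P, dU Q, dU u, dU v,
    dq_comm V P, dq_comm V Q, dq_comm V v, dV P, dV Q, dV v,
    dq_comm v P, dq_comm v Q, dq_comm u P, dq_comm u Q, hPP, hQQ, hPQ, hQP, dq_comm v u]
  ring

end lin

theorem hCTB (hPXE : StPXE) : StCTB := by
  intro n hn K B P Q hK _hB hop hk0 hmx a g
  refine ⟨?_, cq_lc K B a g⟩
  rcases hk0.lt_or_eq with hpos | hzero
  · -- `κ > 0`
    have hM : MXP K (fun _ _ => 0) P Q (bil K P Q) := by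
      refine ⟨hK, fun _ _ => rfl, hop, rfl, by simp [bil], hpos, fun c d hcd => ?_⟩
      have h1 : bil (fun _ _ => (0 : ℝ)) c d = 0 := by simp [bil]
      rw [h1]
      have := hmx c d hcd
      linarith
    obtain ⟨e1, e2, e3, -, -⟩ := hPXE n hn K _ P Q _ hM (bil K P P) rfl
    have hPP : dq P P = 1 := by
      have := hop.1
      unfold dq
      simpa [pow_two] using this
    have hQQ : dq Q Q = 1 := by
      have := hop.2.1
      unfold dq
      simpa [pow_two] using this
    have hPQ : dq P Q = 0 := hop.2.2
    have hQP : dq Q P = 0 := by rw [dq_comm]; exact hPQ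
    rw [QB_dq, QB_dq]
    have mP : mv K P = fun i => bil K P P * P i + bil K P Q * Q i := funext e2
    have mQ : mv K Q = fun i => bil K P P * Q i + bil K P Q * P i := funext e3
    have uP : mv (lc a g K B) P = fun i => (a * bil K P P) * P i + (a * bil K P Q) * Q i
        + g * mv B P i := by
      funext i
      have h1 : mv (lc a g K B) P i = a * mv K P i + g * mv B P i := by
        unfold mv lc
        rw [Finset.mul_sum, Finset.mul_sum, ← Finset.sum_add_distrib]
        exact Finset.sum_congr rfl fun j _ => by ring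
      rw [h1, mP]
      ring
    have uQ : mv (lc a g K B) Q = fun i => (a * bil K P P) * Q i + (a * bil K P Q) * P i
        + g * mv B Q i := by
      funext i
      have h1 : mv (lc a g K B) Q i = a * mv K Q i + g * mv B Q i := by
        unfold mv lc
        rw [Finset.mul_sum, Finset.mul_sum, ← Finset.sum_add_distrib]
        exact Finset.sum_congr rfl fun j _ => by ring
      rw [h1, mQ]
      ring
    rw [uP, uQ]
    exact core K hK P Q (mv B P) (mv B Q) _ _ a g mP mQ hPP hQQ hPQ
  · have h0 : ∀ c d, OP c d → bil K c d = 0 := by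
      intro c d hcd
      have h := hmx c d hcd
      rw [← hzero] at h
      have h2 : bil K c d ^ 2 ≤ 0 := by simpa using h
      exact pow_eq_zero_iff (two_ne_zero) |>.1 (le_antisymm h2 (sq_nonneg _))
    have hs := scalar_of_zero K P hop.1 h0 hK
    rw [QB_dq, QB_dq, hs (mv (lc a g K B) P), hs (mv B P), ← hzero]
    ring

end Helper3.HG
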